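import Pool.Agent.H1R3.Canc.NotEq
import Pool.Agent.H1R3.Canc.Transfer
import Pool.Agent.H1R3.Canc.Rank
import Pool.Agent.H1R3.Canc.Torsion

set_option autoImplicit false

open scoped Pointwise
open Set Function MeasureTheory
open Pool.Agent.H1R3.Canc

universe u

namespace Pool.Agent.Results.MP_59868e_an.Cancellation

/-- Every compact abelian group which is not of bounded exponent carries a translation-invariant
algebra for which cancellation fails, already with `n = 2`. -/
theorem exists_failure (X : Type u) [AddCommGroup X] [TopologicalSpace X]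
    [IsTopologicalAddGroup X] [CompactSpace X] [T2Space X]
    (hX : ¬ ∃ n : ℕ, 0 < n ∧ ∀ x : X, n • x = 0) :
    ∃ 𝒜 : Set (Set X), IsSetAlgebra 𝒜 ∧ TransInvariant 𝒜 ∧ ∃ A ∈ 𝒜, ∃ B ∈ 𝒜,
      MulEquidec 𝒜 2 A B ∧ ¬ Equidec 𝒜 A B := by
  obtain ⟨j, hj⟩ := exists_injective_int3 hX
  exact exists_of_injective j hj isSetAlgebra_Alg transInvariant_Alg A'_mem B'_mem
    mulEquidec_A'_B' not_equidec

/-- **Laczkovich's question on the Cancellation Law for translations of compact abelian groups.**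
For a compact (Hausdorff) abelian group `X`, the Cancellation Law holds for every
translation-invariant subalgebra of `𝒫(X)` if and only if `X` is of bounded exponent; in
particular it fails for the circle group, already with `n = 2`. -/
theorem result :
    (∀ (X : Type u) [AddCommGroup X] [TopologicalSpace X] [IsTopologicalAddGroup X]
      [CompactSpace X] [T2Space X],
      (∀ 𝒜 : Set (Set X), IsSetAlgebra 𝒜 → TransInvariant 𝒜 → CancellationLaw 𝒜) ↔
        ∃ n : ℕ, 0 < n ∧ ∀ x : X, n • x = 0) ∧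
    (∃ 𝒜 : Set (Set UnitAddCircle), IsSetAlgebra 𝒜 ∧ TransInvariant 𝒜 ∧
      ∃ A ∈ 𝒜, ∃ B ∈ 𝒜, MulEquidec 𝒜 2 A B ∧ ¬ Equidec 𝒜 A B) := by
  refine ⟨?_, ?_⟩
  · intro X _ _ _ _ _
    constructor
    · intro h
      by_contra hX
      obtain ⟨𝒜, h1, h2, A, hA, B, hB, h3, h4⟩ := exists_failure X hX
      exact h4 (h 𝒜 h1 h2 A hA B hB 2 (by norm_num) h3)
    · rintro ⟨n, hn, hx⟩ 𝒜 h1 h2
      exact cancellation_of_torsion (fun x => ⟨n, hn, hx x⟩) h1 h2
  · apply exists_failure
    rintro ⟨n, hn, hx⟩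
    have h1 := hx (((1 : ℝ) / ((n + 1 : ℕ) : ℝ) : ℝ) : UnitAddCircle)
    have h2 : addOrderOf (((1 : ℝ) / ((n + 1 : ℕ) : ℝ) : ℝ) : UnitAddCircle) = n + 1 :=
      AddCircle.addOrderOf_period_div (p := (1 : ℝ)) (Nat.succ_pos n)
    have h3 := addOrderOf_dvd_of_nsmul_eq_zero h1
    rw [h2] at h3
    have := Nat.le_of_dvd hn h3
    omega

end Pool.Agent.Results.MP_59868e_an.Cancellation
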